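import Mathlib
import Pool.Agent.UNI.Par

/-!
# QOL/Inert: every imaginary quadratic order has an inert prime

`c` = a prime divisor of `4 |D| - 1` with Jacobi symbol `(D / c) = -1`.
-/

namespace QOL

open UNI

theorem inert (a : Par) : ∃ c : ℕ, c.Prime ∧ ∀ m : ℤ × ℤ, (c : ℤ) ∣ nm a m →
    (c : ℤ) ∣ m.1 ∧ (c : ℤ) ∣ m.2 := by
  obtain ⟨t, n, h⟩ := a
  set d : ℤ := 4 * n - t ^ 2 with hd
  have hd0 : 0 < d := by rw [hd]; linarith
  obtain ⟨b, hb⟩ : ∃ b : ℕ, (b : ℤ) = 4 * d - 1 := ⟨(4 * d - 1).toNat, Int.toNat_of_nonneg (by omega)⟩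
  have hb4 : b % 4 = 3 := by omega
  have hodd : Odd b := Nat.odd_iff.2 (by omega)
  have hJ : jacobiSym (-d) b = -1 := by
    have h1 : jacobiSym (-1) b = -1 := by
      rw [jacobiSym.at_neg_one hodd, ZMod.χ₄_nat_three_mod_four hb4]
    have hcop : (2 : ℤ).gcd b = 1 := by
      have : Nat.Coprime 2 b := (Nat.coprime_two_left).2 hodd
      simpa [Int.gcd] using this
    have h4 : jacobiSym (2 ^ 2) b = 1 := jacobiSym.sq_one' hcop
    have h2 : jacobiSym (4 * d) b = 1 := by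
      rw [jacobiSym.mod_left' (a₂ := 1), jacobiSym.one_left]
      rw [show (4 * d : ℤ) = 1 + b by rw [hb]; ring]
      exact Int.add_emod_right 1 b
    have h3 : jacobiSym d b = 1 := by
      rw [show (4 : ℤ) * d = 2 ^ 2 * d by norm_num, jacobiSym.mul_left, h4, one_mul] at h2
      exact h2
    rw [show -d = -1 * d by ring, jacobiSym.mul_left, h1, h3]
    norm_num
  obtain ⟨c, hc, hcb, hJc⟩ := jacobiSym.eq_neg_one_at_prime_divisor_of_eq_neg_one hJ
  have : Fact c.Prime := ⟨hc⟩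
  have hcodd : Odd c := Odd.of_dvd_nat hodd hcb
  have hns : ¬ IsSquare ((-d : ℤ) : ZMod c) := ZMod.nonsquare_of_jacobiSym_eq_neg_one hJc
  refine ⟨c, hc, fun m hm => ?_⟩
  obtain ⟨x, z⟩ := m
  simp only [nm] at hm ⊢
  have e1 : (((x ^ 2 + t * x * z + n * z ^ 2 : ℤ)) : ZMod c) = 0 :=
    (ZMod.intCast_zmod_eq_zero_iff_dvd _ c).2 hm
  have hz : (c : ℤ) ∣ z := by
    by_contra hz
    have hz0 : (z : ZMod c) ≠ 0 := fun h0 => hz ((ZMod.intCast_zmod_eq_zero_iff_dvd _ c).1 h0)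
    apply hns
    refine ⟨((2 * x + t * z : ℤ) : ZMod c) * (z : ZMod c)⁻¹, ?_⟩
    have e2 : ((-d : ℤ) : ZMod c) * (z : ZMod c) ^ 2 = ((2 * x + t * z : ℤ) : ZMod c) ^ 2 := by
      have e3 : ((2 * x + t * z : ℤ) : ZMod c) ^ 2 - ((-d : ℤ) : ZMod c) * (z : ZMod c) ^ 2
          = 4 * (((x ^ 2 + t * x * z + n * z ^ 2 : ℤ)) : ZMod c) := by
        rw [hd]
        push_cast
        ring
      rw [e1, mul_zero] at e3
      exact (sub_eq_zero.1 e3).symm
    field_simp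
    linear_combination e2
  refine ⟨?_, hz⟩
  have hx2 : (c : ℤ) ∣ x ^ 2 := by
    have h5 : x ^ 2 = (x ^ 2 + t * x * z + n * z ^ 2) - z * (t * x + n * z) := by ring
    rw [h5]
    exact dvd_sub hm (Dvd.dvd.mul_right hz _)
  exact (Nat.prime_iff_prime_int.1 hc).dvd_of_dvd_pow hx2

end QOL
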