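import Mathlib
import Pool.Agent.K3R.LFunLattice
import Pool.Agent.UNI.Par

/-!
# QOL/Lfun: the function `sum eta ^ 2 / N(eta) ^ s` of an imaginary quadratic order
-/

namespace QOL

open UNI

/-- half of the square root of the discriminant -/
noncomputable def hh (a : Par) : ℝ := Real.sqrt (4 * a.n - a.t ^ 2) / 2

lemma disc_pos (a : Par) : (0 : ℝ) < 4 * a.n - a.t ^ 2 := by
  have h : ((a.t ^ 2 : ℤ) : ℝ) < ((4 * a.n : ℤ) : ℝ) := by exact_mod_cast a.h
  push_cast at h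
  linarith

lemma hh_pos (a : Par) : 0 < hh a := by
  have := Real.sqrt_pos.2 (disc_pos a)
  rw [hh]
  positivity

lemma lat_eq (a : Par) (m : ℤ × ℤ) : LatL.lat ((a.t : ℝ) / 2) (hh a) m = xx a m := by
  rw [LatL.lat, xx, om, hh]
  push_cast
  ring

lemma Q_eq_nm (a : Par) (m : ℤ × ℤ) : LatL.Q ((a.t : ℝ) / 2) (hh a) m = (nm a m : ℝ) := by
  rw [LatL.Q, nm, hh]
  have h := Real.sq_sqrt (disc_pos a).le
  push_cast
  linear_combination ((m.2 : ℝ) ^ 2 / 4) * h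

lemma norm_sq_xx (a : Par) (m : ℤ × ℤ) : ‖xx a m‖ ^ 2 = (nm a m : ℝ) := by
  rw [← lat_eq, ← LatL.Q_eq, Q_eq_nm]

lemma xx_mul_conj (a : Par) (m : ℤ × ℤ) :
    xx a m * (starRingEnd ℂ) (xx a m) = (nm a m : ℂ) := by
  rw [Complex.mul_conj, Complex.normSq_eq_norm_sq, norm_sq_xx]
  norm_cast

/-- the L-function -/
noncomputable def LL (a : Par) : ℂ → ℂ := LatL.Z ((a.t : ℝ) / 2) (hh_pos a)

theorem LL_diff (a : Par) : Differentiable ℂ (LL a) := LatL.Z_diff _ _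

theorem LL_hasSum (a : Par) {s : ℂ} (hs : 2 < s.re) :
    HasSum (fun m : ℤ × ℤ => if m = 0 then 0 else xx a m ^ 2 / (nm a m : ℂ) ^ s) (LL a s) := by
  have h : HasSum _ (LL a s) := LatL.hasSum_Z ((a.t : ℝ) / 2) (hh_pos a) hs
  refine LatL.hsC h fun m => ?_
  rw [lat_eq, Q_eq_nm]
  by_cases hm : m = 0
  · rw [if_pos hm, hm]
    simp [xx]
  · rw [if_neg hm]
    norm_cast

theorem LL_four (a : Par) : LL a 4 = E42 a := by
  have h := (LL_hasSum a (s := 4) (by norm_num)).tsum_eq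
  rw [← h, E42]
  refine tsum_congr fun m => ?_
  by_cases hm : m = 0
  · rw [if_pos hm, hm]
    simp [xx]
  · rw [if_neg hm, ← xx_mul_conj]
    have e : (xx a m * (starRingEnd ℂ) (xx a m)) ^ (4 : ℂ)
        = (xx a m * (starRingEnd ℂ) (xx a m)) ^ 4 := by
      rw [show (4 : ℂ) = ((4 : ℕ) : ℂ) by norm_num, Complex.cpow_natCast]
    rw [e]
    by_cases h0 : xx a m = 0
    · simp [h0]
    · have h1 : (starRingEnd ℂ) (xx a m) ≠ 0 := by simpa using h0
      field_simp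

theorem LL_deriv (a : Par) : deriv (LL a) (-1) =
    -((6 * (Real.sqrt (4 * a.n - a.t ^ 2)) ^ 5 / (2 * Real.pi) ^ 5 : ℝ) : ℂ) * E42 a := by
  have h : HasDerivAt (LL a) _ (-1) := LatL.hasDerivAt_Z ((a.t : ℝ) / 2) (hh_pos a)
  have h4 : LatL.Z ((a.t : ℝ) / 2) (hh_pos a) 4 = E42 a := LL_four a
  rw [h.deriv, h4, hh]
  congr 2
  push_cast
  ring

/-- entire continuation, and the derivative at `-1` -/
theorem Lfun (a : Par) : ∃ L : ℂ → ℂ, Differentiable ℂ L ∧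
    (∀ s : ℂ, 2 < s.re →
      HasSum (fun m : ℤ × ℤ => if m = 0 then 0 else xx a m ^ 2 / (nm a m : ℂ) ^ s) (L s)) ∧
    deriv L (-1) =
      -((6 * (Real.sqrt (4 * a.n - a.t ^ 2)) ^ 5 / (2 * Real.pi) ^ 5 : ℝ) : ℂ) * E42 a :=
  ⟨LL a, LL_diff a, fun _ hs => LL_hasSum a hs, LL_deriv a⟩

/-- `E42` is real -/
theorem E42_real (a : Par) : (E42 a).im = 0 := by
  apply Complex.conj_eq_iff_im.mp
  let e : ℤ × ℤ ≃ ℤ × ℤ :=
    { toFun := fun m => (m.1 + a.t * m.2, -m.2)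
      invFun := fun m => (m.1 + a.t * m.2, -m.2)
      left_inv := fun m => by ext <;> simp
      right_inv := fun m => by ext <;> simp }
  have he : ∀ m, xx a (e m) = (starRingEnd ℂ) (xx a m) := by
    intro m
    simp only [xx, om, e, Equiv.coe_fn_mk, map_add, map_mul, map_div₀, Complex.conj_ofReal,
      Complex.conj_I, map_intCast, map_ofNat]
    push_cast
    ring
  unfold E42
  rw [Complex.conj_tsum, ← e.tsum_eq]
  refine tsum_congr fun m => ?_
  rw [he, map_div₀, map_mul, map_pow, map_pow, Complex.conj_conj, map_one]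

end QOL
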