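import Mathlib
import Pool.Agent.QOL.Lfun

/-!
# QOL/Nonzero: `E42 <> 0` for all imaginary quadratic orders except `Z[i]` and `Z[rho]`

The terms of `m = (1,0)`, `(-1,0)` are `1`, the others have absolute value `1 / N ^ 3`, and their sum
is less than `1.7`.
-/

namespace QOL

open UNI

noncomputable def NA (k : ℕ) (a : ℤ) : ℝ := 1 / (a : ℝ) ^ k

noncomputable def Nd (c a : ℤ) : ℝ := if a = c then 1 else 0

lemma NA_sum {k : ℕ} (hk : Even k) (hk0 : k ≠ 0) {s : ℝ}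
    (h : HasSum (fun n : ℕ => 1 / (n : ℝ) ^ k) s) : HasSum (NA k) (s + s) := by
  have h1 : HasSum (fun n : ℕ => NA k (n : ℤ)) s := by
    refine h.congr_fun ?_
    intro n
    simp [NA]
  have h2 : HasSum (fun n : ℕ => NA k (-((n : ℤ) + 1))) s := by
    have h3 : HasSum (fun n : ℕ => 1 / ((n + 1 : ℕ) : ℝ) ^ k) s := by
      have h4 := (hasSum_nat_add_iff' (f := fun n : ℕ => 1 / (n : ℝ) ^ k) 1).2 h
      simpa [hk0] using h4
    refine h3.congr_fun ?_
    intro n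
    simp only [NA]
    push_cast
    rw [Even.neg_pow hk]
  exact h1.of_nat_of_neg_add_one h2

lemma NA2 : HasSum (NA 2) (Real.pi ^ 2 / 6 + Real.pi ^ 2 / 6) :=
  NA_sum (by decide) (by norm_num) hasSum_zeta_two

lemma NA4 : HasSum (NA 4) (Real.pi ^ 4 / 90 + Real.pi ^ 4 / 90) :=
  NA_sum (by decide) (by norm_num) hasSum_zeta_four

lemma Ndsum (c : ℤ) : HasSum (Nd c) 1 := by
  unfold Nd
  exact hasSum_ite_eq c 1

lemma NA_nonneg {k : ℕ} (hk : Even k) (a : ℤ) : 0 ≤ NA k a := by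
  unfold NA
  have := hk.pow_nonneg (a : ℝ)
  positivity

lemma Nd_nonneg (c a : ℤ) : 0 ≤ Nd c a := by
  unfold Nd
  split_ifs <;> norm_num

/-- the bound for the sum without the two unit terms -/
noncomputable def Ng (p : ℤ × ℤ) : ℝ :=
  64 / 343 * (NA 2 p.1 * NA 4 p.2) + 1 / 8 * (Nd 0 p.1 * NA 4 p.2) +
    (1 / 4 * (NA 4 p.1 * Nd 0 p.2) - 1 / 4 * (Nd 1 p.1 * Nd 0 p.2)
      - 1 / 4 * (Nd (-1) p.1 * Nd 0 p.2))

lemma Nmul {f g : ℤ → ℝ} {s t : ℝ} (hf : HasSum f s) (hg : HasSum g t)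
    (h1 : ∀ a, 0 ≤ f a) (h2 : ∀ a, 0 ≤ g a) :
    HasSum (fun p : ℤ × ℤ => f p.1 * g p.2) (s * t) :=
  hf.mul hg (hf.summable.mul_of_nonneg hg.summable h1 h2)

lemma Ngsum : HasSum Ng (64 / 343 * ((Real.pi ^ 2 / 6 + Real.pi ^ 2 / 6) *
    (Real.pi ^ 4 / 90 + Real.pi ^ 4 / 90)) + 1 / 8 * (1 * (Real.pi ^ 4 / 90 + Real.pi ^ 4 / 90)) +
    (1 / 4 * ((Real.pi ^ 4 / 90 + Real.pi ^ 4 / 90) * 1) - 1 / 4 * (1 * 1) - 1 / 4 * (1 * 1))) := by
  have e2 : Even 2 := by decide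
  have e4 : Even 4 := by decide
  exact (((Nmul NA2 NA4 (NA_nonneg e2) (NA_nonneg e4)).mul_left (64 / 343)).add
    ((Nmul (Ndsum 0) NA4 (Nd_nonneg 0) (NA_nonneg e4)).mul_left (1 / 8))).add
    ((((Nmul NA4 (Ndsum 0) (NA_nonneg e4) (Nd_nonneg 0)).mul_left (1 / 4)).sub
      ((Nmul (Ndsum 1) (Ndsum 0) (Nd_nonneg 1) (Nd_nonneg 0)).mul_left (1 / 4))).sub
      ((Nmul (Ndsum (-1)) (Ndsum 0) (Nd_nonneg (-1)) (Nd_nonneg 0)).mul_left (1 / 4)))

/-- indicator of the two units -/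
noncomputable def Nu (p : ℤ × ℤ) : ℝ :=
  Nd 1 p.1 * Nd 0 p.2 + Nd (-1) p.1 * Nd 0 p.2

lemma Nusum : HasSum Nu (1 * 1 + 1 * 1) :=
  (Nmul (Ndsum 1) (Ndsum 0) (Nd_nonneg 1) (Nd_nonneg 0)).add
    (Nmul (Ndsum (-1)) (Ndsum 0) (Nd_nonneg (-1)) (Nd_nonneg 0))

lemma Nbound (r q : ℤ) (hr : r = 0 ∨ r = 1) (hq : 2 ≤ q) (p : ℤ × ℤ) :
    1 / ((p.1 : ℝ) ^ 2 + r * p.1 * p.2 + q * (p.2 : ℝ) ^ 2) ^ 3 ≤ Nu p + Ng p := by
  obtain ⟨a, b⟩ := p
  simp only
  have hqr : (2 : ℝ) ≤ q := by exact_mod_cast hq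
  by_cases hb : b = 0
  · subst hb
    by_cases h0 : a = 0
    · subst h0
      norm_num [Nu, Ng, NA, Nd]
    · by_cases h1 : a = 1
      · subst h1
        norm_num [Nu, Ng, NA, Nd]
      · by_cases h2 : a = -1
        · subst h2
          norm_num [Nu, Ng, NA, Nd]
        · have h3 : 4 ≤ a ^ 2 := by
            have : 2 ≤ |a| := by
              rcases le_or_gt 0 a with h | h
              · rw [abs_of_nonneg h]; omega
              · rw [abs_of_neg h]; omega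
            nlinarith [sq_abs a]
          have h4 : (4 : ℝ) ≤ (a : ℝ) ^ 2 := by exact_mod_cast h3
          have e1 : Nu (a, 0) + Ng (a, 0) = 1 / 4 * (1 / (a : ℝ) ^ 4) := by
            simp [Nu, Ng, NA, Nd, h0, h1, h2]
          rw [e1]
          have h5 : ((a : ℝ) ^ 2 + r * a * ((0 : ℤ) : ℝ) + q * (((0 : ℤ) : ℝ)) ^ 2) ^ 3 =
              (a : ℝ) ^ 4 * (a : ℝ) ^ 2 := by
            push_cast
            ring
          rw [h5]
          have h6 : 0 < (a : ℝ) ^ 4 := by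
            have : (a : ℝ) ≠ 0 := by exact_mod_cast h0
            positivity
          rw [← one_div_mul_one_div, mul_comm]
          apply mul_le_mul_of_nonneg_right _ (by positivity)
          exact one_div_le_one_div_of_le (by norm_num) h4
  · have hb1 : (1 : ℝ) ≤ (b : ℝ) ^ 2 := by
      have : 1 ≤ b ^ 2 := by
        have : 0 < b ^ 2 := by positivity
        omega
      exact_mod_cast this
    have hbr : (b : ℝ) ≠ 0 := by exact_mod_cast hb
    by_cases h0 : a = 0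
    · subst h0
      have e1 : Nu (0, b) + Ng (0, b) = 1 / 8 * (1 / (b : ℝ) ^ 4) := by
        simp [Nu, Ng, NA, Nd, hb]
      rw [e1]
      have h5 : ((((0 : ℤ) : ℝ)) ^ 2 + r * ((0 : ℤ) : ℝ) * b + q * (b : ℝ) ^ 2) ^ 3 =
          q ^ 3 * ((b : ℝ) ^ 4 * (b : ℝ) ^ 2) := by
        push_cast
        ring
      have h6 : (8 : ℝ) * (b : ℝ) ^ 4 ≤ (q : ℝ) ^ 3 * ((b : ℝ) ^ 4 * (b : ℝ) ^ 2) := by
        have h7 : (8 : ℝ) ≤ (q : ℝ) ^ 3 := by
          calc (8 : ℝ) = 2 ^ 3 := by norm_num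
            _ ≤ (q : ℝ) ^ 3 := pow_le_pow_left₀ (by norm_num) hqr 3
        have h8 : (b : ℝ) ^ 4 ≤ (b : ℝ) ^ 4 * (b : ℝ) ^ 2 := by
          have : 0 ≤ (b : ℝ) ^ 4 := by positivity
          nlinarith
        exact mul_le_mul h7 h8 (by positivity) (by positivity)
      rw [h5]
      calc 1 / ((q : ℝ) ^ 3 * ((b : ℝ) ^ 4 * (b : ℝ) ^ 2)) ≤ 1 / (8 * (b : ℝ) ^ 4) :=
            one_div_le_one_div_of_le (by positivity) h6
        _ = 1 / 8 * (1 / (b : ℝ) ^ 4) := by field_simp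
    · have har : (a : ℝ) ≠ 0 := by exact_mod_cast h0
      have e1 : Nu (a, b) + Ng (a, b) = 64 / 343 * (1 / (a : ℝ) ^ 2 * (1 / (b : ℝ) ^ 4)) := by
        simp [Nu, Ng, NA, Nd, hb, h0]
      rw [e1]
      set x : ℝ := (a : ℝ) with hx
      set z : ℝ := (b : ℝ) with hz
      have hz2 : 0 < z ^ 2 := by positivity
      have hqz : 2 * z ^ 2 ≤ q * z ^ 2 := mul_le_mul_of_nonneg_right hqr hz2.le
      have hN1 : 7 / 4 * z ^ 2 ≤ x ^ 2 + r * x * z + q * z ^ 2 := by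
        rcases hr with rfl | rfl
        · push_cast; nlinarith [sq_nonneg x]
        · push_cast; nlinarith [sq_nonneg (x + z / 2)]
      have hN2 : 7 / 4 * |x * z| ≤ x ^ 2 + r * x * z + q * z ^ 2 := by
        rcases hr with rfl | rfl
        · push_cast
          rcases le_or_gt 0 (x * z) with h | h
          · rw [abs_of_nonneg h]
            nlinarith [sq_nonneg (x - z), sq_nonneg z]
          · rw [abs_of_neg h]
            nlinarith [sq_nonneg (x + z), sq_nonneg z]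
        · push_cast
          rcases le_or_gt 0 (x * z) with h | h
          · rw [abs_of_nonneg h]
            nlinarith [sq_nonneg (x - z), sq_nonneg z]
          · rw [abs_of_neg h]
            nlinarith [sq_nonneg (x + 11 / 8 * z), sq_nonneg z]
      have hxz : 0 < |x * z| := abs_pos.2 (mul_ne_zero har hbr)
      have h7 : 343 / 64 * (x ^ 2 * z ^ 4) ≤ (x ^ 2 + r * x * z + q * z ^ 2) ^ 3 := by
        have e : 343 / 64 * (x ^ 2 * z ^ 4) = (7 / 4 * |x * z|) ^ 2 * (7 / 4 * z ^ 2) := by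
          rw [mul_pow, sq_abs]
          ring
        rw [e, pow_succ (x ^ 2 + r * x * z + q * z ^ 2) 2]
        exact mul_le_mul (pow_le_pow_left₀ (by positivity) hN2 2) hN1 (by positivity)
          (by positivity)
      calc 1 / (x ^ 2 + r * x * z + q * z ^ 2) ^ 3 ≤ 1 / (343 / 64 * (x ^ 2 * z ^ 4)) :=
            one_div_le_one_div_of_le (by positivity) h7
        _ = 64 / 343 * (1 / x ^ 2 * (1 / z ^ 4)) := by
            field_simp

lemma Nnorm (a : Par) (p : ℤ × ℤ) :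
    ‖1 / (xx a p ^ 2 * (starRingEnd ℂ (xx a p)) ^ 4)‖ =
      1 / ((p.1 : ℝ) ^ 2 + a.t * p.1 * p.2 + a.n * (p.2 : ℝ) ^ 2) ^ 3 := by
  have h := norm_sq_xx a p
  rw [nm] at h
  push_cast at h
  rw [← h, norm_div, norm_mul, norm_pow, norm_pow, RCLike.norm_conj, norm_one]
  ring

/-- the case `t = 0` or `t = 1` -/
theorem E42_ne_aux (a : Par) (ht : a.t = 0 ∨ a.t = 1) (hn : 2 ≤ a.n) : E42 a ≠ 0 := by
  have hs : Summable fun p : ℤ × ℤ => 1 / (xx a p ^ 2 * (starRingEnd ℂ (xx a p)) ^ 4) := by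
    refine Summable.of_norm_bounded (Nusum.add Ngsum).summable fun p => ?_
    rw [Nnorm]
    exact Nbound a.t a.n ht hn p
  have h1 : HasSum (fun p : ℤ × ℤ => (1 / (xx a p ^ 2 * (starRingEnd ℂ (xx a p)) ^ 4)).re)
      (E42 a).re := Complex.hasSum_re hs.hasSum
  have h2 : ∀ p : ℤ × ℤ, Nu p - Ng p ≤
      (1 / (xx a p ^ 2 * (starRingEnd ℂ (xx a p)) ^ 4)).re := by
    intro p
    by_cases hp : p = (1, 0) ∨ p = (-1, 0)
    · rcases hp with rfl | rfl
      · norm_num [Nu, Ng, NA, Nd, xx]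
      · norm_num [Nu, Ng, NA, Nd, xx]
    · push Not at hp
      have h3 := Nbound a.t a.n ht hn p
      rw [← Nnorm] at h3
      have h4 : Nu p = 0 := by
        obtain ⟨a, b⟩ := p
        simp only [Nu, Nd]
        by_cases hb : b = 0
        · subst hb
          have ha : a ≠ 1 := fun h => hp.1 (by rw [h])
          have ha' : a ≠ -1 := fun h => hp.2 (by rw [h])
          simp [ha, ha']
        · simp [hb]
      rw [h4] at h3 ⊢
      have h5 := (abs_le.1 (Complex.abs_re_le_norm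
        (1 / (xx a p ^ 2 * (starRingEnd ℂ (xx a p)) ^ 4)))).1
      linarith
  have h3 := hasSum_le h2 (Nusum.sub Ngsum) h1
  have hpi : Real.pi ^ 2 ≤ 9.87 := by
    have := Real.pi_lt_d4
    have := Real.pi_pos
    nlinarith
  have hpi0 : 0 < Real.pi ^ 2 := by positivity
  have hpi4 : Real.pi ^ 4 ≤ 97.42 := by
    have : Real.pi ^ 4 = Real.pi ^ 2 * Real.pi ^ 2 := by ring
    rw [this]
    nlinarith
  have hpi40 : 0 < Real.pi ^ 4 := by positivity
  have hprod : Real.pi ^ 2 * Real.pi ^ 4 ≤ 9.87 * 97.42 :=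
    mul_le_mul hpi hpi4 hpi40.le (by norm_num)
  intro h0
  rw [h0, Complex.zero_re] at h3
  nlinarith

/-- translation of `om` by an integer -/
lemma E42_shift (a b : Par) (k : ℤ) (ht : a.t = b.t + 2 * k) (hn : a.n = b.n + k * b.t + k ^ 2) :
    E42 a = E42 b := by
  let e : ℤ × ℤ ≃ ℤ × ℤ :=
    { toFun := fun m => (m.1 + k * m.2, m.2)
      invFun := fun m => (m.1 - k * m.2, m.2)
      left_inv := fun m => by ext <;> simp
      right_inv := fun m => by ext <;> simp }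
  have hd : (4 * a.n - a.t ^ 2 : ℝ) = 4 * b.n - b.t ^ 2 := by
    rw [ht, hn]
    push_cast
    ring
  have hom : om a = k + om b := by
    rw [om, om, hd, ht]
    push_cast
    ring
  have he : ∀ m, xx b (e m) = xx a m := by
    intro m
    simp only [xx, e, Equiv.coe_fn_mk, hom]
    push_cast
    ring
  rw [E42, E42, ← e.tsum_eq (fun m => 1 / (xx b m ^ 2 * (starRingEnd ℂ) (xx b m) ^ 4))]
  exact tsum_congr fun m => by rw [he]

/-- `E42 <> 0` except for the orders of discriminant `-3` and `-4` -/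
theorem E42_ne (a : Par) (h3 : 4 * a.n - a.t ^ 2 ≠ 3) (h4 : 4 * a.n - a.t ^ 2 ≠ 4) :
    E42 a ≠ 0 := by
  have hh := a.h
  set k : ℤ := a.t / 2 with hk
  set r : ℤ := a.t % 2 with hr
  have hrk : a.t = r + 2 * k := by omega
  have hr01 : r = 0 ∨ r = 1 := by omega
  set q : ℤ := a.n - k * r - k ^ 2 with hq
  have hdisc : 4 * a.n - a.t ^ 2 = 4 * q - r ^ 2 := by
    rw [hq, hrk]; ring
  have hq2 : 2 ≤ q := by
    rcases hr01 with h | h
    · rw [h] at hdisc
      omega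
    · rw [h] at hdisc
      omega
  let b : Par := ⟨r, q, by omega⟩
  rw [E42_shift a b k hrk (by simp only [b]; rw [hq]; ring)]
  exact E42_ne_aux b hr01 hq2

end QOL
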